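import Mathlib

/-!
# The tail correlation spindle is not contained in the PSD cone for `n ≥ 6`

The point with `x_{in} = 1/2` (`i < n`) and all other coordinates `0` satisfies every valid
inequality of `TCF_n` that is tight at `v₀` or at `v₁`, since `v₀ + ε (x - v₀)` and
`v₁ + ε (x - v₁)` belong to `TCF_n` for small `ε > 0`.
-/

namespace Pool.Agent.Results.MP_db83b6_pr.SpindleNotPSD

open MeasureTheory Set

/-- The set `E_n` of pairs `i < j`. -/
abbrev Pairs (n : ℕ) : Type := {p : Fin n × Fin n // p.1 < p.2}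

/-- The polytope `TCF_n` of tail correlation functions on `n` points. -/
def TCF (n : ℕ) : Set (Pairs n → ℝ) :=
  {χ | ∃ (Ω : Type) (_ : MeasurableSpace Ω) (P : Measure Ω) (_ : IsProbabilityMeasure P)
    (A : Fin n → Set Ω), (∀ i, MeasurableSet (A i)) ∧ (∀ i, P.real (A i) = 1 / (n : ℝ)) ∧
      ∀ e : Pairs n, χ e = (n : ℝ) * P.real (A e.1.1 ∩ A e.1.2)}

/-- The vertex `v₀ = (0, …, 0)`. -/
def v0 (n : ℕ) : Pairs n → ℝ := fun _ => 0

/-- The vertex `v₁ = (1, …, 1)`. -/
def v1 (n : ℕ) : Pairs n → ℝ := fun _ => 1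

/-- The part of `TCF_n` on which the inequality `∑ a_e x_e ≤ b` is an equality. -/
def face (n : ℕ) (a : Pairs n → ℝ) (b : ℝ) : Set (Pairs n → ℝ) :=
  {χ | χ ∈ TCF n ∧ ∑ e, a e * χ e = b}

/-- `∑ a_e x_e ≤ b` is a facet-defining inequality of `TCF_n`: it is valid on `TCF_n`, and the
face it defines has dimension one less than `TCF_n`. -/
def IsFacetInequality (n : ℕ) (a : Pairs n → ℝ) (b : ℝ) : Prop :=
  (∀ χ ∈ TCF n, ∑ e, a e * χ e ≤ b) ∧
  Module.finrank ℝ (vectorSpan ℝ (face n a b)) + 1 = Module.finrank ℝ (vectorSpan ℝ (TCF n))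

/-- The polytope `TCF_n(v₀, v₁)` cut out by the facet-defining inequalities of `TCF_n` whose
facet contains `v₀` or `v₁`. -/
def spindle (n : ℕ) : Set (Pairs n → ℝ) :=
  {x | ∀ (a : Pairs n → ℝ) (b : ℝ), IsFacetInequality n a b →
    (v0 n ∈ face n a b ∨ v1 n ∈ face n a b) → ∑ e, a e * x e ≤ b}

/-- The symmetric matrix `X(x)` with diagonal entries `1`. -/
noncomputable def X (n : ℕ) (x : Pairs n → ℝ) (i j : Fin n) : ℝ :=
  if h : i < j then x ⟨(i, j), h⟩ else if h' : j < i then x ⟨(j, i), h'⟩ else 1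

/-- `PSD_n`: the points `x` for which `X(x)` is positive semidefinite. -/
def PSD (n : ℕ) : Set (Pairs n → ℝ) :=
  {x | ∀ a : Fin n → ℝ, 0 ≤ ∑ i, ∑ j, a i * X n x i j * a j}

/-! ### Finite probability spaces -/

/-- The measure with weights `w` on a finite type. -/
noncomputable def wm {Ω : Type} [Fintype Ω] [MeasurableSpace Ω] (w : Ω → ℝ) : Measure Ω :=
  ∑ ω, ENNReal.ofReal (w ω) • Measure.dirac ω

open scoped Classical in
lemma wm_real {Ω : Type} [Fintype Ω] [MeasurableSpace Ω] [DiscreteMeasurableSpace Ω] (w : Ω → ℝ)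
    (hw : ∀ ω, 0 ≤ w ω) (A : Set Ω) : (wm w).real A = ∑ ω, if ω ∈ A then w ω else 0 := by
  unfold wm
  rw [Measure.real, Measure.finsetSum_apply, ENNReal.toReal_sum]
  · refine Finset.sum_congr rfl fun ω _ => ?_
    rw [Measure.smul_apply, Measure.dirac_apply' _ (MeasurableSet.of_discrete)]
    by_cases h : ω ∈ A
    · simp [h, ENNReal.toReal_ofReal (hw ω)]
    · simp [h]
  · intro ω _
    rw [Measure.smul_apply, Measure.dirac_apply' _ (MeasurableSet.of_discrete)]
    by_cases h : ω ∈ A <;> simp [h]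

lemma wm_prob {Ω : Type} [Fintype Ω] [MeasurableSpace Ω] [DiscreteMeasurableSpace Ω] (w : Ω → ℝ)
    (hw : ∀ ω, 0 ≤ w ω) (h1 : ∑ ω, w ω = 1) : IsProbabilityMeasure (wm w) := by
  constructor
  have h := wm_real w hw univ
  simp only [mem_univ, if_true, h1] at h
  have hfin : (wm w) univ ≠ ⊤ := by
    unfold wm
    rw [Measure.finsetSum_apply]
    refine ENNReal.sum_ne_top.2 fun ω _ => ?_
    simp
  rw [Measure.real] at h
  rw [← ENNReal.ofReal_toReal hfin, h]
  simp

/-- The atoms: for every index `i` two atoms, and two more. -/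
abbrev At (n : ℕ) : Type := (Fin n × Bool) ⊕ Bool

/-- Weights on the atoms: `α i`, `β i`, and `c`, `d`. -/
def wt {n : ℕ} (α β : Fin n → ℝ) (c d : ℝ) : At n → ℝ
  | Sum.inl (i, true) => α i
  | Sum.inl (i, false) => β i
  | Sum.inr true => c
  | Sum.inr false => d

lemma sum_At {n : ℕ} (f : At n → ℝ) : ∑ ω, f ω
    = ∑ i, (f (Sum.inl (i, true)) + f (Sum.inl (i, false))) + (f (Sum.inr true) + f (Sum.inr false)) := by
  rw [Fintype.sum_sum_type, Fintype.sum_prod_type]
  simp

/-- The star point: `1/2` on the pairs that contain the last index, `0` elsewhere. -/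
noncomputable def star (m : ℕ) : Pairs (m + 1) → ℝ := fun e => if e.1.2 = Fin.last m then 1 / 2 else 0

/-- Weight `l` on all indices but the last. -/
def lw (m : ℕ) (l : ℝ) : Fin (m + 1) → ℝ := fun i => if i = Fin.last m then 0 else l

lemma sum_lw (m : ℕ) (l : ℝ) : ∑ i, lw m l i = m * l := by
  rw [Fin.sum_univ_castSucc]
  have h1 : ∀ i : Fin m, lw m l i.castSucc = l := fun i => by
    unfold lw
    rw [if_neg (Fin.castSucc_lt_last i).ne]
  have h2 : lw m l (Fin.last m) = 0 := by simp [lw]
  simp only [h1, h2]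
  simp

lemma fst_ne_last {m : ℕ} (e : Pairs (m + 1)) : e.1.1 ≠ Fin.last m :=
  (lt_of_lt_of_le e.2 (Fin.le_last _)).ne

/-- Points near `v₁` in the direction of the star point belong to `TCF_n`. -/
lemma near_v1 (m : ℕ) : ∃ ε : ℝ, 0 < ε ∧ (fun e => v1 (m + 1) e + ε * (star m e - v1 (m + 1) e))
    ∈ TCF (m + 1) := by
  classical
  set N : ℝ := (m : ℝ) + 1 with hN
  have hN0 : 0 < N := by positivity
  set l : ℝ := 1 / (4 * N ^ 2) with hl
  have hl0 : 0 < l := by positivity
  have hlN : N * l * N = 1 / 4 := by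
    rw [hl]; field_simp
  have hmN : (m : ℝ) ≤ N := by linarith
  have hml : (m : ℝ) * l ≤ N * l := mul_le_mul_of_nonneg_right hmN hl0.le
  have hNl : N * l = 1 / (4 * N) := by rw [hl]; field_simp
  have hNl' : N * l ≤ 1 / N := by
    rw [hNl]
    apply one_div_le_one_div_of_le hN0
    linarith
  have hm0 : (0 : ℝ) ≤ m := Nat.cast_nonneg m
  set W : ℝ := 1 / N - m * l with hW
  have hW0 : 0 ≤ W := by linarith
  set d : ℝ := 1 - 2 * (m * l) - W with hd
  have hd0 : 0 ≤ d := by
    rw [hd, hW]
    have h1 : 1 - 2 * (m * l) - (1 / N - m * l) = (1 - 1 / N) - m * l := by ring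
    rw [h1]
    rcases Nat.eq_zero_or_pos m with h | h
    · subst h
      simp [hN]
    · have h2 : (1 : ℝ) ≤ m := by exact_mod_cast h
      have h3 : 1 / N ≤ 1 / 2 := one_div_le_one_div_of_le (by norm_num) (by linarith)
      have h4 : N * l ≤ 1 / 8 := by
        rw [hNl]
        apply one_div_le_one_div_of_le (by norm_num)
        linarith
      linarith
  have hlw : ∀ i, 0 ≤ lw m l i := fun i => by
    unfold lw
    split_ifs
    · exact le_rfl
    · exact hl0.le
  have hwt : ∀ ω, 0 ≤ wt (lw m l) (lw m l) W d ω := by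
    rintro (⟨i, _ | _⟩ | _ | _)
    · exact hlw i
    · exact hlw i
    · exact hd0
    · exact hW0
  refine ⟨2 * N * l, by positivity, At (m + 1), ⊤, ?_⟩
  let _ : MeasurableSpace (At (m + 1)) := ⊤
  have hdisc : DiscreteMeasurableSpace (At (m + 1)) := ⟨fun _ => trivial⟩
  refine ⟨wm (wt (lw m l) (lw m l) W d), wm_prob _ hwt ?_, fun j => {ω | match ω with
    | Sum.inl (i, true) => i = j
    | Sum.inl (i, false) => i ≠ j
    | Sum.inr true => True
    | Sum.inr false => False}, fun _ => trivial, fun j => ?_, fun e => ?_⟩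
  · rw [sum_At]
    simp only [wt, Finset.sum_add_distrib, sum_lw]
    rw [hd]; ring
  · rw [wm_real _ hwt, sum_At]
    simp only [wt, mem_ofPred_eq, if_true, if_false, add_zero]
    have hgoal : (∑ i, lw m l i) + W = 1 / ((m + 1 : ℕ) : ℝ) := by
      rw [sum_lw, hW]; push_cast; ring
    rw [← hgoal]
    congr 1
    refine Finset.sum_congr rfl fun i _ => ?_
    by_cases h : i = j <;> simp [h]
  · have hne : e.1.1 ≠ e.1.2 := e.2.ne
    have h1last := fst_ne_last e
    rw [wm_real _ hwt, sum_At]
    simp only [wt, mem_inter_iff, mem_ofPred_eq, if_true, if_false, add_zero, and_self]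
    have h1 : ∀ i : Fin (m + 1), ((if i = e.1.1 ∧ i = e.1.2 then lw m l i else 0)
        + if i ≠ e.1.1 ∧ i ≠ e.1.2 then lw m l i else 0)
        = lw m l i - (if i = e.1.1 then lw m l i else 0) - (if i = e.1.2 then lw m l i else 0) :=
      fun i => by
      by_cases h : i = e.1.1
      · have h' : i ≠ e.1.2 := fun h'' => hne (h.symm.trans h'')
        simp [h, hne]
      · by_cases h' : i = e.1.2
        · simp [h', hne.symm]
        · simp [h, h']
    rw [Finset.sum_congr rfl fun i _ => h1 i, Finset.sum_sub_distrib, Finset.sum_sub_distrib,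
      sum_lw, Finset.sum_ite_eq' Finset.univ e.1.1, Finset.sum_ite_eq' Finset.univ e.1.2]
    simp only [Finset.mem_univ, if_true]
    have h2 : lw m l e.1.1 = l := by unfold lw; rw [if_neg h1last]
    rw [h2, hW]
    unfold v1 star lw
    push_cast
    rw [← hN]
    have hN' : N * (1 / N) = 1 := by field_simp
    by_cases h : e.1.2 = Fin.last m
    · rw [if_pos h, if_pos h]
      linear_combination (-1 : ℝ) * hN'
    · rw [if_neg h, if_neg h]
      linear_combination (-1 : ℝ) * hN'

/-- Small multiples of the star point belong to `TCF_n`. -/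
lemma near_v0 (m : ℕ) : ∃ ε : ℝ, 0 < ε ∧ (fun e => ε * star m e) ∈ TCF (m + 1) := by
  classical
  set N : ℝ := (m : ℝ) + 1 with hN
  have hN0 : 0 < N := by positivity
  set l : ℝ := 1 / (4 * N ^ 2) with hl
  have hl0 : 0 < l := by positivity
  have hmN : (m : ℝ) ≤ N := by linarith
  have hm0 : (0 : ℝ) ≤ m := Nat.cast_nonneg m
  have hml : (m : ℝ) * l ≤ N * l := mul_le_mul_of_nonneg_right hmN hl0.le
  have hNl : N * l = 1 / (4 * N) := by rw [hl]; field_simp
  have hNl' : N * l ≤ 1 / N := by
    rw [hNl]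
    apply one_div_le_one_div_of_le hN0
    linarith
  have hlN' : l ≤ 1 / N := by
    rw [hl]
    apply one_div_le_one_div_of_le hN0
    have : 1 ≤ N := by linarith
    nlinarith
  have h1N : 0 ≤ 1 / N - l := by linarith
  have hlw : ∀ (x : ℝ), 0 ≤ x → ∀ i, 0 ≤ lw m x i := fun x hx i => by
    unfold lw
    split_ifs
    · exact le_rfl
    · exact hx
  have hwt : ∀ ω, 0 ≤ wt (lw m (1 / N - l)) (lw m l) (1 / N - m * l) (m * l) ω := by
    rintro (⟨i, _ | _⟩ | _ | _)
    · exact hlw _ hl0.le i
    · exact hlw _ h1N i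
    · exact mul_nonneg hm0 hl0.le
    · show 0 ≤ 1 / N - m * l
      linarith
  refine ⟨2 * N * l, by positivity, At (m + 1), ⊤, ?_⟩
  let _ : MeasurableSpace (At (m + 1)) := ⊤
  have hdisc : DiscreteMeasurableSpace (At (m + 1)) := ⟨fun _ => trivial⟩
  refine ⟨wm (wt (lw m (1 / N - l)) (lw m l) (1 / N - m * l) (m * l)), wm_prob _ hwt ?_,
    fun j => {ω | match ω with
    | Sum.inl (i, true) => i = j
    | Sum.inl (i, false) => i = j ∨ j = Fin.last m
    | Sum.inr true => j = Fin.last m
    | Sum.inr false => False}, fun _ => trivial, fun j => ?_, fun e => ?_⟩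
  · rw [sum_At]
    simp only [wt, Finset.sum_add_distrib, sum_lw]
    have hN' : N * (1 / N) = 1 := by field_simp
    have : (m : ℝ) = N - 1 := by rw [hN]; ring
    rw [this]
    linear_combination hN'
  · rw [wm_real _ hwt, sum_At]
    simp only [wt, mem_ofPred_eq, if_false, add_zero]
    by_cases hj : j = Fin.last m
    · subst hj
      have hgoal : (∑ i, lw m l i) + (1 / N - m * l) = 1 / ((m + 1 : ℕ) : ℝ) := by
        rw [sum_lw]; push_cast; ring
      rw [← hgoal]
      congr 1
      · refine Finset.sum_congr rfl fun i _ => ?_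
        by_cases h : i = Fin.last m
        · subst h; simp [lw]
        · simp [h]
      · simp
    · have hgoal : (∑ i, if i = j then 1 / N else 0) + 0 = 1 / ((m + 1 : ℕ) : ℝ) := by
        rw [Finset.sum_ite_eq' Finset.univ j]
        simp only [Finset.mem_univ, if_true]
        push_cast
        ring
      rw [← hgoal]
      congr 1
      · refine Finset.sum_congr rfl fun i _ => ?_
        by_cases h : i = j
        · subst h; simp [lw, hj]
        · simp [h, hj]
      · simp [hj]
  · have hne : e.1.1 ≠ e.1.2 := e.2.ne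
    have h1last := fst_ne_last e
    rw [wm_real _ hwt, sum_At]
    simp only [wt, mem_inter_iff, mem_ofPred_eq, if_false, add_zero, and_self, h1last, or_false,
      false_and]
    unfold star
    by_cases h : e.1.2 = Fin.last m
    · have h1 : ∀ i : Fin (m + 1), ((if i = e.1.1 ∧ i = e.1.2 then lw m (1 / N - l) i else 0)
          + if i = e.1.1 ∧ (i = e.1.2 ∨ e.1.2 = Fin.last m) then lw m l i else 0)
          = if i = e.1.1 then l else 0 := fun i => by
        by_cases h' : i = e.1.1
        · subst h'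
          simp [h, h1last, lw]
        · simp [h']
      rw [Finset.sum_congr rfl fun i _ => h1 i, Finset.sum_ite_eq' Finset.univ e.1.1, if_pos h]
      simp only [Finset.mem_univ, if_true]
      push_cast
      ring
    · have h1 : ∀ i : Fin (m + 1), ((if i = e.1.1 ∧ i = e.1.2 then lw m (1 / N - l) i else 0)
          + if i = e.1.1 ∧ (i = e.1.2 ∨ e.1.2 = Fin.last m) then lw m l i else 0)
          = 0 := fun i => by
        by_cases h' : i = e.1.1
        · subst h'
          simp [h, hne]
        · simp [h']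
      rw [Finset.sum_congr rfl fun i _ => h1 i, if_neg h]
      simp

/-- The star point belongs to the spindle. -/
lemma star_mem_spindle (m : ℕ) : star m ∈ spindle (m + 1) := by
  rintro a b ⟨hvalid, -⟩ (⟨-, h0⟩ | ⟨-, h1⟩)
  · obtain ⟨ε, hε, hmem⟩ := near_v0 m
    have h2 := hvalid _ hmem
    have hb : b = 0 := by
      rw [← h0]; simp [v0]
    have e : ∑ e, a e * (ε * star m e) = ε * ∑ e, a e * star m e := by
      rw [Finset.mul_sum]
      exact Finset.sum_congr rfl fun i _ => by ring
    rw [e, hb] at h2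
    rw [hb]
    by_contra h
    push Not at h
    have := mul_pos hε h
    linarith
  · obtain ⟨ε, hε, hmem⟩ := near_v1 m
    have h2 := hvalid _ hmem
    have e : ∑ e, a e * (v1 (m + 1) e + ε * (star m e - v1 (m + 1) e))
        = b + ε * (∑ e, a e * star m e - b) := by
      rw [← h1, mul_sub, Finset.mul_sum, Finset.mul_sum, ← Finset.sum_sub_distrib,
        ← Finset.sum_add_distrib]
      exact Finset.sum_congr rfl fun i _ => by ring
    rw [e] at h2
    by_contra h
    push Not at h
    have := mul_pos hε (sub_pos.2 h)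
    linarith

/-- The star point is not positive semidefinite if `m ≥ 5`. -/
lemma star_notMem_PSD {m : ℕ} (hm : 5 ≤ m) : star m ∉ PSD (m + 1) := by
  intro h
  have h1 := h (fun i => if i = Fin.last m then -2 else 1)
  have hX : ∀ i j : Fin (m + 1), X (m + 1) (star m) i j
      = if i = j then 1 else if i = Fin.last m ∨ j = Fin.last m then 1 / 2 else 0 := by
    intro i j
    unfold X star
    by_cases hij : i < j
    · have hi : i ≠ Fin.last m := (lt_of_lt_of_le hij (Fin.le_last _)).ne
      simp [hij, hij.ne, hi]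
    · by_cases hji : j < i
      · have hj : j ≠ Fin.last m := (lt_of_lt_of_le hji (Fin.le_last _)).ne
        simp [hij, hji, hji.ne', hj]
      · have : i = j := le_antisymm (not_lt.1 hji) (not_lt.1 hij)
        simp [this]
  simp only [hX] at h1
  rw [Fin.sum_univ_castSucc] at h1
  simp only [Fin.sum_univ_castSucc (n := m)] at h1
  have hne : ∀ i : Fin m, i.castSucc ≠ Fin.last m := fun i => (Fin.castSucc_lt_last i).ne
  have hne' : ∀ i : Fin m, Fin.last m ≠ i.castSucc := fun i => (hne i).symm
  simp only [hne, hne', if_false, if_true, Fin.castSucc_inj, or_false,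
    or_true, one_mul, mul_one, Finset.sum_ite_eq, Finset.mem_univ, Finset.sum_const,
    Finset.card_univ, Fintype.card_fin, nsmul_eq_mul] at h1
  have hm' : (5 : ℝ) ≤ m := by exact_mod_cast hm
  norm_num at h1
  linarith

/-- For every `n ≥ 6` (in particular for every `n ≥ 7`) the polytope `TCF_n(v₀, v₁)` is not
contained in `PSD_n`. -/
theorem result (n : ℕ) (hn : 6 ≤ n) : ¬ spindle n ⊆ PSD n := by
  obtain ⟨m, rfl⟩ : ∃ m, n = m + 1 := ⟨n - 1, by omega⟩
  intro h
  exact star_notMem_PSD (by omega) (h (star_mem_spindle m))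

end Pool.Agent.Results.MP_db83b6_pr.SpindleNotPSD
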